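import Pool.Agent.W744.BU.Stm

/-!
BU-POLB: the unitary part of a continuous family of invertible elements is continuous.
-/

set_option autoImplicit false

open Set Filter Topology

namespace Pool.Agent.W885.BU.POLB

open Pool.Agent.W744.BU

theorem spec_pos {B : Type} [CStarAlgebra B] (g : B) (hg : IsUnit g) :
    spectrum ℝ (star g * g) ⊆ Ioi 0 := by
  intro s hs
  have h0 : 0 ≤ s := spectrum_star_mul_self_nonneg s hs
  have h1 : s ≠ 0 := by
    rintro rfl
    have hu : IsUnit (star g * g) := hg.star.mul hg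
    exact (spectrum.zero_notMem_iff ℝ).2 hu hs
  exact lt_of_le_of_ne h0 (Ne.symm h1)

theorem main : S_POLB := by
  intro B _ g hg hu
  unfold polF
  refine hg.mul ?_
  refine Continuous.cfc_of_mem_nhdsSet (s := Ioi (0 : ℝ)) _ ?_ (hg.star.mul hg)
    (fun t => IsSelfAdjoint.star_mul_self (g t)) ?_
  · rw [isOpen_Ioi.mem_nhdsSet]
    exact iUnion_subset fun t => spec_pos (g t) (hu t)
  · refine ContinuousOn.inv₀ Real.continuous_sqrt.continuousOn ?_
    intro s hs
    exact (Real.sqrt_pos.2 hs).ne'

end Pool.Agent.W885.BU.POLB
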